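import Pool.Agent.helper84.NR.SpecW

set_option autoImplicit false

namespace Pool.Agent.helper84.NR

open scoped Classical
open Finset

theorem CCTW (hXCLW : XCLW_stmt) (hCLSW : CLSW_stmt) (hRHO : RHO_stmt) : CCTW_stmt := by
  intro V F _ _ M x y J hT
  have : Fintype (Quot (lk M (inU M x y J))) := Fintype.ofFinite _
  rw [Nat.card_eq_fintype_card, ← Finset.card_univ]
  obtain ⟨hX1, hX2⟩ := hXCLW V F M x y J hT
  obtain ⟨A0, hA0⟩ := M.cover x
  obtain ⟨B0, hB0⟩ := M.cover y
  set P : Finset (Quot (lk M (inU M x y J))) := univ.filter fun q => Pure M x y J q with hP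
  have h1 : (univ : Finset (Quot (lk M (inU M x y J)))) ⊆
      insert (Quot.mk _ A0) (insert (Quot.mk _ B0) P) := by
    intro q _
    rw [mem_insert, mem_insert]
    by_cases ha : ∃ A, OnV M.toCyc A x ∧ Quot.mk _ A = q
    · obtain ⟨A, hA, rfl⟩ := ha
      exact Or.inl (hX1 A A0 hA hA0)
    · by_cases hb : ∃ B, OnV M.toCyc B y ∧ Quot.mk _ B = q
      · obtain ⟨B, hB, rfl⟩ := hb
        exact Or.inr (Or.inl (hX2 B B0 hB hB0))
      · refine Or.inr (Or.inr ?_)
        exact mem_filter.2 ⟨mem_univ _, fun A hA h => ha ⟨A, hA, h⟩, fun B hB h => hb ⟨B, hB, h⟩⟩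
  have h2 : (univ : Finset (Quot (lk M (inU M x y J)))).card ≤ P.card + 1 + 1 := by
    refine (card_le_card h1).trans ?_
    refine (card_insert_le _ _).trans ?_
    exact Nat.add_le_add_right (card_insert_le _ _) 1
  have h3 : Set.ncard {q | Pure M x y J q ∧ SP M x y J q} = (P.filter fun q => SP M x y J q).card := by
    have h4 : {q | Pure M x y J q ∧ SP M x y J q} =
        ((P.filter fun q => SP M x y J q : Finset (Quot (lk M (inU M x y J)))) : Set _) := by
      ext q
      simp only [Set.mem_setOf_eq, hP, coe_filter, mem_filter, mem_univ, true_and]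
    rw [h4, Set.ncard_coe_finset]
  have h5 := hRHO V F M x y J hT
  rw [h3] at h5
  -- the relation
  set R : Quot (lk M (inU M x y J)) → ((_ : F) × ℕ) → Prop := fun q c =>
    Has M x y J q s(ww M y c.1 c.2, ww M y c.1 (c.2 + 1)) with hR
  have h6 : ∀ q ∈ P, 2 ≤ ((gaps M x y J).filter fun c => R q c).card + if SP M x y J q then 1 else 0 := by
    intro q hq
    have hq' : Pure M x y J q := (mem_filter.1 hq).2
    rcases hCLSW V F M x y J hT q hq' with ⟨c1, hc1, c2, hc2, hne, e1, e2⟩ | ⟨⟨c1, hc1, e1⟩, hs⟩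
    · have : 1 < ((gaps M x y J).filter fun c => R q c).card := by
        rw [one_lt_card]
        exact ⟨c1, mem_filter.2 ⟨hc1, e1⟩, c2, mem_filter.2 ⟨hc2, e2⟩, hne⟩
      omega
    · have : 0 < ((gaps M x y J).filter fun c => R q c).card :=
        card_pos.2 ⟨c1, mem_filter.2 ⟨hc1, e1⟩⟩
      rw [if_pos hs]
      omega
  have h7 : ∀ c ∈ gaps M x y J, (P.filter fun q => R q c).card ≤ 1 := by
    intro c hc
    rw [card_le_one]
    intro q hq q' hq'
    obtain ⟨hqD, g, hg, hgq⟩ := mem_filter.1 hq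
    obtain ⟨hqD', g', hg', hgq'⟩ := mem_filter.1 hq'
    obtain ⟨-, -, hqy⟩ := mem_filter.1 hqD
    obtain ⟨-, -, hqy'⟩ := mem_filter.1 hqD'
    have hcJ : c.1 ∈ J := by
      unfold gaps at hc
      exact (mem_sigma.1 hc).1
    have hcy : OnV M.toCyc c.1 y := hT.jy c.1 hcJ
    have hcE : OnE M.toCyc c.1 s(ww M y c.1 c.2, ww M y c.1 (c.2 + 1)) :=
      ⟨st M y c.1 + c.2, rfl⟩
    obtain ⟨f', -, -, hall⟩ := M.two _ _ hcE
    have e1 : g = f' := by
      rcases hall g hg with h | h
      · exact absurd (by rw [← hgq, h]) (hqy c.1 hcy)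
      · exact h
    have e2 : g' = f' := by
      rcases hall g' hg' with h | h
      · exact absurd (by rw [← hgq', h]) (hqy' c.1 hcy)
      · exact h
    rw [← hgq, ← hgq', e1, e2]
  have h8 : ∑ q ∈ P, ((gaps M x y J).filter fun c => R q c).card =
      ∑ c ∈ gaps M x y J, (P.filter fun q => R q c).card :=
    sum_card_bipartiteAbove_eq_sum_card_bipartiteBelow R
  have h9 : ∑ c ∈ gaps M x y J, (P.filter fun q => R q c).card ≤ (gaps M x y J).card := by
    have := sum_le_card_nsmul (gaps M x y J) (fun c => (P.filter fun q => R q c).card) 1 h7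
    simpa using this
  have h10 : P.card * 2 ≤ ∑ q ∈ P, (((gaps M x y J).filter fun c => R q c).card +
      if SP M x y J q then 1 else 0) := by
    have := card_nsmul_le_sum P (fun q => ((gaps M x y J).filter fun c => R q c).card +
      if SP M x y J q then 1 else 0) 2 h6
    simpa using this
  have h11 : (∑ q ∈ P, if SP M x y J q then 1 else 0) = (P.filter fun q => SP M x y J q).card := by
    rw [card_filter]
  rw [sum_add_distrib, h8, h11] at h10
  omega

end Pool.Agent.helper84.NR
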